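import Pool.Agent.U260.CX6

/-!
# The slope of the copolymer critical curve as `α ↑ 1`

For every `m < 3/4` there is `α₀ < 1` such that for all `α ∈ (α₀, 1)`, every renewal law with tail
exponent `α` and every disorder law, `h_c(λ) ≥ m λ` for all small `λ > 0`.  So
`liminf_{α ↑ 1} m_α ≥ 3/4`; the exact slope `(2+α)/(2(1+α))`, known for `α > 1`, tends to `3/4` as
`α ↓ 1`.
-/

set_option autoImplicit false
open MeasureTheory ProbabilityTheory Filter Topology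
open scoped ENNReal NNReal

namespace Pool.Agent.Results.MP_cceb86_pr.SlopeNearOne

/-- law of one (gap, sign) pair: gap with law `κ`, sign uniform on `{false, true}` -/
noncomputable def stepLaw (κ : PMF ℕ) : Measure (ℕ × Bool) :=
  κ.toMeasure.prod (PMF.uniformOfFintype Bool).toMeasure

instance instStepLaw (κ : PMF ℕ) : IsProbabilityMeasure (stepLaw κ) := by
  unfold stepLaw; infer_instance

/-- law of the i.i.d. sequence of (gap, sign) pairs -/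
noncomputable def pathMeasure (κ : PMF ℕ) : Measure (ℕ → ℕ × Bool) :=
  Measure.infinitePi (fun _ : ℕ => stepLaw κ)

/-- renewal points `τ_0 = 0`, `τ_j` = sum of the first `j` gaps -/
def tau (x : ℕ → ℕ × Bool) (j : ℕ) : ℕ := ∑ i ∈ Finset.range j, (x i).1

/-- `Δ_n` = sign of the excursion `(τ_j, τ_{j+1}]` containing `n` (as a real number 0 or 1) -/
noncomputable def Delta (x : ℕ → ℕ × Bool) (n : ℕ) : ℝ :=
  ∑ j ∈ Finset.range n, if tau x j < n ∧ n ≤ tau x (j + 1) ∧ (x j).2 = true then 1 else 0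

/-- the copolymer partition function `Z_{N,ω}` -/
noncomputable def Z (κ : PMF ℕ) (lam h : ℝ) (N : ℕ) (ω : ℕ → ℝ) : ℝ :=
  ∫ x, Real.exp (-2 * lam * ∑ n ∈ Finset.Icc 1 N, Delta x n * (ω n + h)) ∂(pathMeasure κ)

/-- i.i.d. disorder with law `ν` (the coordinates `1, 2, ...` are used) -/
noncomputable def disorder (ν : Measure ℝ) [IsProbabilityMeasure ν] : Measure (ℕ → ℝ) :=
  Measure.infinitePi (fun _ : ℕ => ν)

/-- `N⁻¹ E log Z_N` -/
noncomputable def feN (κ : PMF ℕ) (ν : Measure ℝ) [IsProbabilityMeasure ν] (lam h : ℝ) (N : ℕ) : ℝ :=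
  (N : ℝ)⁻¹ * ∫ ω, Real.log (Z κ lam h N ω) ∂(disorder ν)

/-- the free energy `f(λ,h)` -/
noncomputable def freeEnergy (κ : PMF ℕ) (ν : Measure ℝ) [IsProbabilityMeasure ν] (lam h : ℝ) : ℝ :=
  limUnder atTop (feN κ ν lam h)

/-- the critical curve `h_c(λ) = sup {h : f(λ,h) > 0}` -/
noncomputable def hcrit (κ : PMF ℕ) (ν : Measure ℝ) [IsProbabilityMeasure ν] (lam : ℝ) : ℝ :=
  sSup {h : ℝ | 0 < freeEnergy κ ν lam h}

/-- the law `κ` of the gaps lives on the positive integers and `κ(n) ∼ cK n^{-(1+α)}` -/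
def IsGapLaw (α : ℝ) (κ : PMF ℕ) : Prop :=
  κ 0 = 0 ∧ ∃ cK : ℝ, 0 < cK ∧
    Tendsto (fun n : ℕ => (n : ℝ) ^ (1 + α) * (κ n).toReal) atTop (𝓝 cK)

/-- mean `0`, variance `1`, all exponential moments -/
def IsChargeLaw (ν : Measure ℝ) : Prop :=
  ∫ x, x ∂ν = 0 ∧ ∫ x, x ^ 2 ∂ν = 1 ∧ ∀ t : ℝ, Integrable (fun x => Real.exp (t * x)) ν

/-- **`liminf_{α ↑ 1} m_α ≥ 3/4`.** -/
theorem result :
    (∀ m : ℝ, m < 3 / 4 → ∃ α₀ : ℝ, 0 < α₀ ∧ α₀ < 1 ∧ ∀ α : ℝ, α₀ < α → α < 1 →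
      ∀ κ : PMF ℕ, IsGapLaw α κ → ∀ (ν : Measure ℝ) [IsProbabilityMeasure ν], IsChargeLaw ν →
        (∀ lam, 0 < lam →
          (∀ h, 0 ≤ h → Tendsto (feN κ ν lam h) atTop (𝓝 (freeEnergy κ ν lam h))) ∧
          BddAbove {h : ℝ | 0 < freeEnergy κ ν lam h} ∧
          (∀ h, 0 ≤ h → (0 < freeEnergy κ ν lam h ↔ h < hcrit κ ν lam))) ∧
        ∀ᶠ lam in 𝓝[>] 0, m * lam ≤ hcrit κ ν lam) ∧
    ∀ slope : ℝ → ℝ, (∀ α : ℝ, 0 < α → α < 1 → ∃ κ : PMF ℕ, IsGapLaw α κ ∧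
        ∃ (ν : Measure ℝ) (_ : IsProbabilityMeasure ν), IsChargeLaw ν ∧
          Tendsto (fun lam => hcrit κ ν lam / lam) (𝓝[>] 0) (𝓝 (slope α))) →
      ∀ m : ℝ, m < 3 / 4 → ∀ᶠ α in 𝓝[<] (1 : ℝ), m ≤ slope α := by
  have key : ∀ m : ℝ, m < 3 / 4 → ∃ α₀ : ℝ, 0 < α₀ ∧ α₀ < 1 ∧ ∀ α : ℝ, α₀ < α → α < 1 →
      ∀ κ : PMF ℕ, IsGapLaw α κ → ∀ (ν : Measure ℝ) [IsProbabilityMeasure ν], IsChargeLaw ν →
        (∀ lam, 0 < lam →
          (∀ h, 0 ≤ h → Tendsto (feN κ ν lam h) atTop (𝓝 (freeEnergy κ ν lam h))) ∧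
          BddAbove {h : ℝ | 0 < freeEnergy κ ν lam h} ∧
          (∀ h, 0 ≤ h → (0 < freeEnergy κ ν lam h ↔ h < hcrit κ ν lam))) ∧
        ∀ᶠ lam in 𝓝[>] 0, m * lam ≤ hcrit κ ν lam := by
    intro m' hm'
    obtain ⟨m, hm⟩ : ∃ m, m = max m' (5 / 8) := ⟨_, rfl⟩
    have hm1 : 1 / 2 < m := lt_of_lt_of_le (by norm_num) (hm ▸ le_max_right m' (5 / 8))
    have hm2 : m < 3 / 4 := by
      rw [hm]
      exact max_lt hm' (by norm_num)
    have hmm : m' ≤ m := hm ▸ le_max_left m' (5 / 8)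
    obtain ⟨α₀, ha0, ha1, hslope⟩ := Pool.Agent.U260.CS.slope_near_one hm1 hm2
    refine ⟨α₀, ha0, ha1, ?_⟩
    intro α hα0 hα1 κ hκ ν hν hch
    have hα : 0 < α := ha0.trans hα0
    obtain ⟨h0, cK, hcK, htail⟩ := hκ
    obtain ⟨mean, var, expm⟩ := hch
    have hfirst : ∀ lam, 0 < lam →
        (∀ h, 0 ≤ h → Tendsto (feN κ ν lam h) atTop (𝓝 (freeEnergy κ ν lam h))) ∧
          BddAbove {h : ℝ | 0 < freeEnergy κ ν lam h} ∧
          (∀ h, 0 ≤ h → (0 < freeEnergy κ ν lam h ↔ h < hcrit κ ν lam)) := by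
      intro lam hlam
      obtain ⟨f1, f2, f3, f4, f5, f6⟩ := Pool.Agent.U260.CS.crit_facts
        ⟨κ, h0, α, cK, hα, hcK, htail, ν, hν, mean, var, expm, lam, hlam⟩
      exact ⟨f1, f2, f5⟩
    refine ⟨hfirst, ?_⟩
    obtain ⟨lam0, hlam0, hs⟩ := hslope α hα0 hα1 κ h0 cK hcK htail ν mean var expm
    have hev : ∀ᶠ lam in 𝓝[>] (0 : ℝ), lam < lam0 :=
      nhdsWithin_le_nhds (gt_mem_nhds hlam0)
    filter_upwards [hev, self_mem_nhdsWithin] with lam hl hp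
    have hp' : 0 < lam := hp
    have hpos := hs ⟨κ, h0, α, cK, hα, hcK, htail, ν, hν, mean, var, expm, lam, hp'⟩
      rfl rfl rfl hl
    have h1 := (((hfirst lam hp').2.2 (m * lam) (by positivity)).1 hpos).le
    exact (mul_le_mul_of_nonneg_right hmm hp'.le).trans h1
  refine ⟨key, ?_⟩
  intro slope hslope m hm
  obtain ⟨α₀, ha0, ha1, hk⟩ := key m hm
  have hev : ∀ᶠ α in 𝓝[<] (1 : ℝ), α₀ < α := nhdsWithin_le_nhds (lt_mem_nhds ha1)
  filter_upwards [hev, self_mem_nhdsWithin] with α h1 h2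
  have h2' : α < 1 := h2
  obtain ⟨κ, hκ, ν, hν, hch, hlim⟩ := hslope α (ha0.trans h1) h2'
  refine ge_of_tendsto hlim ?_
  filter_upwards [(hk α h1 h2' κ hκ ν hch).2, self_mem_nhdsWithin] with lam hl hp
  have hp' : 0 < lam := hp
  rw [le_div_iff₀ hp']
  exact hl

end Pool.Agent.Results.MP_cceb86_pr.SlopeNearOne
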